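import Pool.Agent.Helper61.EP.StL

set_option autoImplicit false

open MeasureTheory Set Filter Topology
open scoped ENNReal RealInnerProductSpace

namespace Pool.Agent.Helper37.EPL

open Pool.Agent.Helper61.EPL Pool.Agent.Helper20.RG Pool.Agent.Helper68.EP
open Pool.Agent.Helper20.RL (RQ Rich BM Fml Hit)
open Pool.Agent.Helper61.EP (trS Ex2 Yc Zc Ec am cutf)
open Pool.Agent.Helper68.LM (Pl BB Bd Av HL ft fm DQ)

private theorem measDOM (g : Pl → ℝ) (hg : Measurable g) (P : ℝ → Pl) (hP : Measurable P)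
    (M : ℝ → ℝ) (hM : Measurable M) (a : ℝ) (x : Pl) :
    Measurable (fun z : ℝ × Pl => g (x - a • P z.1 - M z.1 • z.2)) := by
  refine hg.comp ?_
  have h2 : Measurable (fun z : ℝ × Pl => P z.1) := hP.comp measurable_fst
  have h3 : Measurable (fun z : ℝ × Pl => M z.1) := hM.comp measurable_fst
  have h4 : Measurable (fun z : ℝ × Pl => a • P z.1) := h2.const_smul a
  have h5 : Measurable (fun z : ℝ × Pl => x - a • P z.1) := measurable_const.sub h4
  have h6 : Measurable (fun z : ℝ × Pl => M z.1 • z.2) := h3.smul measurable_snd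
  exact h5.sub h6

private theorem meas2DOM (P : ℝ → Pl) (hP : Measurable P) (a : ℝ) :
    Measurable (fun z : Pl × ℝ => z.1 - a • P z.2) := by
  have h2 : Measurable (fun z : Pl × ℝ => P z.2) := hP.comp measurable_snd
  have h4 : Measurable (fun z : Pl × ℝ => a • P z.2) := h2.const_smul a
  exact measurable_fst.sub h4

theorem hLDI (hPT : Pool.Agent.Helper20.RG.StPT) (hMM : Pool.Agent.Helper20.RG.StMM)
    (hLEB : Pool.Agent.Helper20.RG.StLEB) (hDO1 : Pool.Agent.Helper20.RG.StDO1) :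
    Pool.Agent.Helper61.EPL.StLDI := by
  intro φ τ A σ c hG hGap hA hσ g hg hg0
  obtain ⟨-, -, -, -, hptc, -, -, hsq⟩ := hPT
  have hgm : Measurable g := hg.1
  obtain ⟨K, hK, -⟩ := hg.2
  have hK0 : 0 ≤ K := (abs_nonneg _).trans (hK 0)
  -- the curve is continuous
  have hφ1 : ∀ t t' : ℝ, t ≤ t' → |φ t' - φ t| ≤ t' - t := by
    intro t t' htt
    obtain ⟨h2, h3⟩ := hG.2 t t' htt
    have h4 := abs_le.1 (hG.1 t)
    have h5 := abs_le.1 (hG.1 t')
    have h6 : 0 ≤ t' - t := by linarith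
    rw [abs_le]
    constructor <;> nlinarith
  have hφc : Continuous φ := by
    have h1 : LipschitzWith 1 φ := by
      refine LipschitzWith.of_dist_le_mul (fun a b => ?_)
      rw [Real.dist_eq, Real.dist_eq, NNReal.coe_one, one_mul]
      rcases le_total a b with hab | hab
      · rw [abs_sub_comm, abs_sub_comm a b, abs_of_nonneg (show 0 ≤ b - a by linarith)]
        exact hφ1 a b hab
      · rw [abs_of_nonneg (show 0 ≤ a - b by linarith)]
        exact hφ1 b a hab
    exact h1.continuous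
  set P : ℝ → Pl := fun t => c + pt t (φ t) with hP
  have hPc : Continuous P := continuous_const.add (hptc.comp (continuous_id.prodMk hφc))
  have hPm : Measurable P := hPc.measurable
  have hAv : ∀ (k : ℤ) (x : Pl), Av (arc c φ) ((2 : ℝ) ^ k) g x =
      ∫ t in Icc (0 : ℝ) 1, g (x - (2 : ℝ) ^ k • P t) := by
    intro k x
    unfold Av arc
    rw [integral_map hPm.aemeasurable]
    exact (hgm.comp (by fun_prop)).aestronglyMeasurable
  -- Fubini
  set N : Set Pl := {z | ¬ Tendsto (fun ρ : ℝ => Av bx ρ g z) (𝓝[>] 0) (𝓝 (g z))} with hN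
  have hN0 : volume N = 0 := hLEB g hg
  set N' : Set Pl := toMeasurable volume N with hN'
  have hN'm : MeasurableSet N' := measurableSet_toMeasurable _ _
  have hN'0 : volume N' = 0 := by rw [hN', measure_toMeasurable, hN0]
  have hfub : ∀ k : ℤ, ∀ᵐ x : Pl, ∀ᵐ t ∂(volume.restrict (Icc (0 : ℝ) 1)),
      x - (2 : ℝ) ^ k • P t ∉ N' := by
    intro k
    set S : Set (Pl × ℝ) := {z | z.1 - (2 : ℝ) ^ k • P z.2 ∈ N'} with hS
    have hSm : MeasurableSet S := by
      exact meas2DOM P hPm _ hN'm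
    have h0 : ((volume : Measure Pl).prod (volume.restrict (Icc (0 : ℝ) 1))) S = 0 := by
      rw [Measure.prod_apply_symm hSm]
      have h1 : ∀ t : ℝ, volume ((fun x : Pl => (x, t)) ⁻¹' S) = 0 := by
        intro t
        have h2 : (fun x : Pl => (x, t)) ⁻¹' S = (fun x => x - (2 : ℝ) ^ k • P t) ⁻¹' N' := rfl
        rw [h2]
        have h3 := (measurePreserving_sub_right (volume : Measure Pl)
          ((2 : ℝ) ^ k • P t)).measure_preimage hN'm.nullMeasurableSet
        rw [h3, hN'0]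
      simp only [h1, lintegral_zero]
    have h4 := Measure.measure_ae_null_of_prod_null h0
    filter_upwards [h4] with x hx
    rw [ae_iff]
    have h5 : {t : ℝ | ¬ (x - (2 : ℝ) ^ k • P t ∉ N')} = Prod.mk x ⁻¹' S := by
      ext t; simp [hS]
    rw [h5]
    exact hx
  have hbx : bx univ = 1 := by
    unfold bx
    rw [Measure.restrict_apply_univ, (hsq 0 (1 / 2) (by norm_num)).2]
    norm_num
  have hbp : IsProbabilityMeasure bx := ⟨hbx⟩
  -- the main estimate
  rw [ae_all_iff]
  intro k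
  filter_upwards [hfub k] with x hx
  set M : ℕ → ℝ → ℝ := fun u t => (2 : ℝ) ^ (k - (mm τ u ⌊t * 2 ^ u⌋₊ : ℤ)) with hM
  set G : ℕ → ℝ → ℝ := fun u t => Av bx (M u t) g (x - (2 : ℝ) ^ k • P t) with hGd
  have hMm : ∀ u, Measurable (M u) := by
    intro u
    have h1 : Measurable (fun t : ℝ => ⌊t * 2 ^ u⌋₊) := Nat.measurable_floor.comp (by fun_prop)
    have h2 : Measurable (fun n : ℕ => (2 : ℝ) ^ (k - (mm τ u n : ℤ))) := measurable_from_nat
    exact h2.comp h1
  have hGm : ∀ u, StronglyMeasurable (G u) := by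
    intro u
    exact (measDOM g hgm P hPm (M u) (hMm u) ((2 : ℝ) ^ k) x).stronglyMeasurable.integral_prod_right
  have hGb : ∀ u t, ‖G u t‖ ≤ K := by
    intro u t
    have h1 : ‖∫ y, g (x - (2 : ℝ) ^ k • P t - M u t • y) ∂bx‖ ≤ K * bx.real univ :=
      norm_integral_le_of_norm_le_const (Eventually.of_forall (fun y => by
        rw [Real.norm_eq_abs]; exact hK _))
    have h2 : bx.real univ = 1 := by rw [measureReal_def, hbx]; simp
    rw [h2, mul_one] at h1
    exact h1
  have hlim : ∀ᵐ t ∂(volume.restrict (Icc (0 : ℝ) 1)),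
      Tendsto (fun u => G u t) atTop (𝓝 (g (x - (2 : ℝ) ^ k • P t))) := by
    have h1 : ∀ᵐ t ∂(volume.restrict (Icc (0 : ℝ) 1)), t ∈ Icc (0 : ℝ) 1 :=
      ae_restrict_mem measurableSet_Icc
    have h2 : ∀ᵐ t ∂(volume.restrict (Icc (0 : ℝ) 1)), t ≠ 1 :=
      ae_restrict_of_ae (by
        rw [ae_iff]
        have : {a : ℝ | ¬ a ≠ 1} = {1} := by ext a; simp
        rw [this]; exact measure_singleton _)
    filter_upwards [hx, h1, h2] with t ht ht1 ht2
    have h3 : x - (2 : ℝ) ^ k • P t ∉ N := fun h => ht (subset_toMeasurable _ _ h)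
    have h4 : Tendsto (fun ρ : ℝ => Av bx ρ g (x - (2 : ℝ) ^ k • P t)) (𝓝[>] 0)
        (𝓝 (g (x - (2 : ℝ) ^ k • P t))) := not_not.1 h3
    refine h4.comp ?_
    refine tendsto_nhdsWithin_iff.2 ⟨?_, Eventually.of_forall (fun u => by
      show (0 : ℝ) < M u t
      exact zpow_pos (by norm_num) _)⟩
    have h5 : ∀ᶠ u : ℕ in atTop, M u t ≤ (2 : ℝ) ^ (k + 1) * (1 / 2) ^ u := by
      filter_upwards [eventually_ge_atTop 1] with u hu
      have h6 : ⌊t * 2 ^ u⌋₊ < 2 ^ u := by
        rw [Nat.floor_lt (by have := ht1.1; positivity)]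
        push_cast
        have h7 : t < 1 := lt_of_le_of_ne ht1.2 ht2
        have h8 : (0 : ℝ) < 2 ^ u := by positivity
        nlinarith
      have h9 := (hMM φ τ A σ hG hGap hA hσ u _ hu h6).2.2.2.2.1
      have h10 : M u t ≤ (2 : ℝ) ^ (k + 1 - (u : ℤ)) := by
        refine zpow_le_zpow_right₀ (by norm_num) ?_
        have : (u : ℤ) ≤ (mm τ u ⌊t * 2 ^ u⌋₊ : ℤ) + 1 := by exact_mod_cast h9
        linarith
      refine h10.trans (le_of_eq ?_)
      rw [zpow_sub₀ (by norm_num), zpow_natCast, one_div, inv_pow, div_eq_mul_inv]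
    refine squeeze_zero' (Eventually.of_forall (fun u => (zpow_pos (by norm_num) _).le)) h5 ?_
    have h11 := (tendsto_pow_atTop_nhds_zero_of_lt_one (r := (1 / 2 : ℝ)) (by norm_num)
      (by norm_num)).const_mul ((2 : ℝ) ^ (k + 1))
    rwa [mul_zero] at h11
  have hT : Tendsto (fun u => ∫ t in Icc (0 : ℝ) 1, G u t) atTop
      (𝓝 (∫ t in Icc (0 : ℝ) 1, g (x - (2 : ℝ) ^ k • P t))) := by
    refine tendsto_integral_of_dominated_convergence (fun _ => K)
      (fun u => (hGm u).aestronglyMeasurable) (integrable_const K)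
      (fun u => Eventually.of_forall (fun t => hGb u t)) hlim
  have hT2 : Tendsto (fun n : ℕ => ENNReal.ofReal (∫ t in Icc (0 : ℝ) 1, G n t)) atTop
      (𝓝 (ENNReal.ofReal (Av (arc c φ) ((2 : ℝ) ^ k) g x))) := by
    rw [hAv k x]
    exact (ENNReal.continuous_ofReal.tendsto _).comp hT
  rw [← hT2.liminf_eq]
  refine liminf_le_liminf ?_
  filter_upwards [eventually_ge_atTop 1] with u hu
  exact ENNReal.ofReal_le_ofReal (hDO1 φ τ A σ c hG hGap hA hσ u hu g hg hg0 k x)

end Pool.Agent.Helper37.EPL
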